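import Pool.Agent.H70.RZT.S
import Pool.Agent.H51.T1.ZTYI

/-!
# RZT, row TYIN: the type does not depend on the completion

Port of `H51/T1/ZTYI` (the lemmas of `ZTYI51` hold for every Dedekind ring).
-/

set_option autoImplicit false

namespace Pool.RZT

open Polynomial NumberField IsDedekindDomain Pool.HYP Pool.TOW Pool.AVS Pool.T1

/-- Row TYIN. -/
theorem tyin : TYINStmt := by
  intro K _ _ g P ϖ hg f hf _ L _ O ι h L' _ O' ι' h' c γ c' γ' hγ hγ' hfc hfc'
    α x x' hα hN hx hx'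
  have hz : ∀ a b : ZMod 2, (a = 0 ↔ b = 0) → a = b := by decide
  have h1 : x.1 = x'.1 := by
    apply hz
    rw [← ZTYI51.fst hg f hf h c γ hγ hfc α x hα hN hx,
      ← ZTYI51.fst hg f hf h' c' γ' hγ' hfc' α x' hα hN hx']
  obtain ⟨_, _, _, _, _, hs⟩ := hx
  obtain ⟨_, _, _, _, _, hs'⟩ := hx'
  have h2 : x.2 = x'.2 := by
    apply hz
    rw [hs, hs', ← h1, ← ZTYI51.val (fk K f) α c γ hfc, ← ZTYI51.val (fk K f) α c' γ' hfc']
    constructor
    · exact ZTYI51.half h h' hg (fk K f) c γ c' γ' hγ' hfc hfc' _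
        (ZTYI51.val_ne hg (fk K f) α c γ hγ hα hfc _)
        (ZTYI51.val_ne hg (fk K f) α c' γ' hγ' hα hfc' _)
    · exact ZTYI51.half h' h hg (fk K f) c' γ' c γ hγ hfc' hfc _
        (ZTYI51.val_ne hg (fk K f) α c' γ' hγ' hα hfc' _)
        (ZTYI51.val_ne hg (fk K f) α c γ hγ hα hfc _)
  exact Prod.ext h1 h2

end Pool.RZT
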